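import Pool.Agent.Work.MP_46fa68_53.D15_6a

/-!
# MP_46fa68_co: checks for S_15, t = 6

The data were found numerically, rounded and repaired in exact arithmetic.
-/

set_option autoImplicit false

namespace Pool.JM.Tab

open Pool.JM.Pack

theorem cP15_6a : cP W15_6a 68 V15_6a 235 1 17592186044416 309485009821345068724781056 31 9 5 216 36393043207991052 U15_6a 185563667 0 6380288648
    0 2176559047 648648000000000000 14436334 0 595877399 = true := by
  decide +kernel

theorem cA15_6a : cL W15_6a 68 31 9 5 216 (Nat.mul U15_6a 185563667) (Nat.mul U15_6a 0)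
    (Nat.mul U15_6a 6380288648) tA15_6a = true := by
  decide +kernel

theorem cX15_6a : cL W15_6a 68 31 9 6 216 648648000000000000 (Nat.mul U15_6a 0)
    (Nat.mul U15_6a 2176559047) tX15_6a = true := by
  decide +kernel

theorem cG15_6a : cL W15_6a 68 31 9 6 216 (Nat.mul U15_6a 14436334) (Nat.mul U15_6a 0)
    (Nat.mul U15_6a 595877399) tG15_6a = true := by
  decide +kernel

theorem cY15_6a : cY W15_6a 31 15 36393043207991052 tG15_6a = true := by
  decide +kernel

theorem cS15_6a : cS V15_6a 235 W15_6a 68 1 17592186044416 309485009821345068724781056 31 15 tA15_6a tX15_6a tG15_6a = true := by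
  decide +kernel

end Pool.JM.Tab
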