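import Pool.Agent.Work.MP_46fa68_53.D15_6b

/-!
# MP_46fa68_co: checks for S_15, t = 6

The data were found numerically, rounded and repaired in exact arithmetic.
-/

set_option autoImplicit false

namespace Pool.JM.Tab

open Pool.JM.Pack

theorem cP15_6b : cP W15_6b 70 V15_6b 239 1 17592186044416 309485009821345068724781056 31 9 5 216 22300459409418038 U15_6b 170891775 0 5591089716
    0 1633745151 1765764000000000000 29108226 0 352124908 = true := by
  decide +kernel

theorem cA15_6b : cL W15_6b 70 31 9 5 216 (Nat.mul U15_6b 170891775) (Nat.mul U15_6b 0)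
    (Nat.mul U15_6b 5591089716) tA15_6b = true := by
  decide +kernel

theorem cX15_6b : cL W15_6b 70 31 9 6 216 1765764000000000000 (Nat.mul U15_6b 0)
    (Nat.mul U15_6b 1633745151) tX15_6b = true := by
  decide +kernel

theorem cG15_6b : cL W15_6b 70 31 9 6 216 (Nat.mul U15_6b 29108226) (Nat.mul U15_6b 0)
    (Nat.mul U15_6b 352124908) tG15_6b = true := by
  decide +kernel

theorem cY15_6b : cY W15_6b 31 15 22300459409418038 tG15_6b = true := by
  decide +kernel

theorem cS15_6b : cS V15_6b 239 W15_6b 70 1 17592186044416 309485009821345068724781056 31 15 tA15_6b tX15_6b tG15_6b = true := by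
  decide +kernel

end Pool.JM.Tab
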