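import Pool.Agent.Work.MP_46fa68_53.D17_7a

/-!
# MP_46fa68_co: checks for S_17, t = 7

The data were found numerically, rounded and repaired in exact arithmetic.
-/

set_option autoImplicit false

namespace Pool.JM.Tab

open Pool.JM.Pack

theorem cP17_7a : cP W17_7a 72 V17_7a 243 1 17592186044416 309485009821345068724781056 35 10 6 768 821585156822637719 U17_7a 189577663 0 9082116512
    0 2513747209 2940537600000000000 10422338 0 580541359 = true := by
  decide +kernel

theorem cA17_7a : cL W17_7a 72 35 10 6 768 (Nat.mul U17_7a 189577663) (Nat.mul U17_7a 0)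
    (Nat.mul U17_7a 9082116512) tA17_7a = true := by
  decide +kernel

theorem cX17_7a : cL W17_7a 72 35 10 7 768 2940537600000000000 (Nat.mul U17_7a 0)
    (Nat.mul U17_7a 2513747209) tX17_7a = true := by
  decide +kernel

theorem cG17_7a : cL W17_7a 72 35 10 7 768 (Nat.mul U17_7a 10422338) (Nat.mul U17_7a 0)
    (Nat.mul U17_7a 580541359) tG17_7a = true := by
  decide +kernel

theorem cY17_7a : cY W17_7a 35 17 821585156822637719 tG17_7a = true := by
  decide +kernel

theorem cS17_7a : cS V17_7a 243 W17_7a 72 1 17592186044416 309485009821345068724781056 35 17 tA17_7a tX17_7a tG17_7a = true := by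
  decide +kernel

end Pool.JM.Tab
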