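import Pool.Agent.Work.MP_46fa68_53.D17_7b

/-!
# MP_46fa68_co: checks for S_17, t = 7

The data were found numerically, rounded and repaired in exact arithmetic.
-/

set_option autoImplicit false

namespace Pool.JM.Tab

open Pool.JM.Pack

theorem cP17_7b : cP W17_7b 74 V17_7b 247 1 17592186044416 309485009821345068724781056 35 10 6 768 595440299606391564 U17_7b 173116699 0 7143269251
    0 1777935613 6861254400000000000 26883302 0 334465912 = true := by
  decide +kernel

theorem cA17_7b : cL W17_7b 74 35 10 6 768 (Nat.mul U17_7b 173116699) (Nat.mul U17_7b 0)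
    (Nat.mul U17_7b 7143269251) tA17_7b = true := by
  decide +kernel

theorem cX17_7b : cL W17_7b 74 35 10 7 768 6861254400000000000 (Nat.mul U17_7b 0)
    (Nat.mul U17_7b 1777935613) tX17_7b = true := by
  decide +kernel

theorem cG17_7b : cL W17_7b 74 35 10 7 768 (Nat.mul U17_7b 26883302) (Nat.mul U17_7b 0)
    (Nat.mul U17_7b 334465912) tG17_7b = true := by
  decide +kernel

theorem cY17_7b : cY W17_7b 35 17 595440299606391564 tG17_7b = true := by
  decide +kernel

theorem cS17_7b : cS V17_7b 247 W17_7b 74 1 17592186044416 309485009821345068724781056 35 17 tA17_7b tX17_7b tG17_7b = true := by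
  decide +kernel

end Pool.JM.Tab
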