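import Pool.Agent.Work.MP_46fa68_53.D19_9h

/-!
# MP_46fa68_co: checks for S_19, t = 9

The data were found numerically, rounded and repaired in exact arithmetic.
-/

set_option autoImplicit false

namespace Pool.JM.Tab

open Pool.JM.Pack

theorem cP19_9h : cP W19_9h 86 V19_9h 271 1 17592186044416 309485009821345068724781056 39 10 8 768 2525341853089041203425 U19_9h 34978569 0 243538132
    0 1481043716 30505137062400000000000 165021432 0 6666422163 = true := by
  decide +kernel

theorem cA19_9h : cL W19_9h 86 39 10 8 768 (Nat.mul U19_9h 34978569) (Nat.mul U19_9h 0)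
    (Nat.mul U19_9h 243538132) tA19_9h = true := by
  decide +kernel

theorem cX19_9h : cL W19_9h 86 39 10 9 768 30505137062400000000000 (Nat.mul U19_9h 0)
    (Nat.mul U19_9h 1481043716) tX19_9h = true := by
  decide +kernel

theorem cG19_9h : cL W19_9h 86 39 10 9 768 (Nat.mul U19_9h 165021432) (Nat.mul U19_9h 0)
    (Nat.mul U19_9h 6666422163) tG19_9h = true := by
  decide +kernel

theorem cY19_9h : cY W19_9h 39 19 2525341853089041203425 tG19_9h = true := by
  decide +kernel

theorem cS19_9h : cS V19_9h 271 W19_9h 86 1 17592186044416 309485009821345068724781056 39 19 tA19_9h tX19_9h tG19_9h = true := by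
  decide +kernel

end Pool.JM.Tab
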