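import Pool.Agent.Work.MP_46fa68_53.D19_9l

/-!
# MP_46fa68_co: checks for S_19, t = 9

The data were found numerically, rounded and repaired in exact arithmetic.
-/

set_option autoImplicit false

namespace Pool.JM.Tab

open Pool.JM.Pack

theorem cP19_9l : cP W19_9l 87 V19_9l 273 1 17592186044416 309485009821345068724781056 39 10 8 768 48170010027562910866 U19_9l 167201597 0 3168325041
    0 1330392431 80117887449600000000000 32798404 0 411429317 = true := by
  decide +kernel

theorem cA19_9l : cL W19_9l 87 39 10 8 768 (Nat.mul U19_9l 167201597) (Nat.mul U19_9l 0)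
    (Nat.mul U19_9l 3168325041) tA19_9l = true := by
  decide +kernel

theorem cX19_9l : cL W19_9l 87 39 10 9 768 80117887449600000000000 (Nat.mul U19_9l 0)
    (Nat.mul U19_9l 1330392431) tX19_9l = true := by
  decide +kernel

theorem cG19_9l : cL W19_9l 87 39 10 9 768 (Nat.mul U19_9l 32798404) (Nat.mul U19_9l 0)
    (Nat.mul U19_9l 411429317) tG19_9l = true := by
  decide +kernel

theorem cY19_9l : cY W19_9l 39 19 48170010027562910866 tG19_9l = true := by
  decide +kernel

theorem cS19_9l : cS V19_9l 273 W19_9l 87 1 17592186044416 309485009821345068724781056 39 19 tA19_9l tX19_9l tG19_9l = true := by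
  decide +kernel

end Pool.JM.Tab
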