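import Pool.Agent.Work.MP_46fa68_53.C15_6a
import Pool.Agent.Work.MP_46fa68_48c.Tab

/-!
# MP_46fa68_co: excluded densities for S_15, t = 6

The data were found numerically, rounded and repaired in exact arithmetic.
-/

set_option autoImplicit false

namespace Pool.JM.Tab

open Pool.JM.Pack

theorem jcs15_6a : JCs 14 9 185563667 (-6380288648) 2176559047 14436334 (-595877399) := by
  have h := JCs_of_tab_neg cP15_6a cA15_6a cX15_6a cG15_6a cY15_6a cS15_6a
  norm_num at h
  exact h

/-- no cell of a 6-intersecting family of at least `θ m!` permutations of `15` points has a density in this range -/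
theorem excl15_6a : Excl 15 6 (273 / 400) (89 / 400) (23 / 50) :=
  jcs15_6a.excl (by norm_num) (by norm_num) (by norm_num) (by norm_num) (by norm_num)
    (by norm_num) (by norm_num) (by norm_num) (by norm_num) (by norm_num) (by norm_num)
    (by norm_num)


end Pool.JM.Tab
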