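import Pool.Agent.Work.MP_46fa68_53.C17_7a
import Pool.Agent.Work.MP_46fa68_48c.Tab

/-!
# MP_46fa68_co: excluded densities for S_17, t = 7

The data were found numerically, rounded and repaired in exact arithmetic.
-/

set_option autoImplicit false

namespace Pool.JM.Tab

open Pool.JM.Pack

theorem jcs17_7a : JCs 16 10 189577663 (-9082116512) 2513747209 10422338 (-580541359) := by
  have h := JCs_of_tab_neg cP17_7a cA17_7a cX17_7a cG17_7a cY17_7a cS17_7a
  norm_num at h
  exact h

/-- no cell of a 7-intersecting family of at least `θ m!` permutations of `17` points has a density in this range -/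
theorem excl17_7a : Excl 17 7 (677 / 1000) (77 / 400) (19 / 50) :=
  jcs17_7a.excl (by norm_num) (by norm_num) (by norm_num) (by norm_num) (by norm_num)
    (by norm_num) (by norm_num) (by norm_num) (by norm_num) (by norm_num) (by norm_num)
    (by norm_num)


end Pool.JM.Tab
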