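import Pool.Agent.Work.MP_46fa68_53.C17_7b
import Pool.Agent.Work.MP_46fa68_48c.Tab

/-!
# MP_46fa68_co: excluded densities for S_17, t = 7

The data were found numerically, rounded and repaired in exact arithmetic.
-/

set_option autoImplicit false

namespace Pool.JM.Tab

open Pool.JM.Pack

theorem jcs17_7b : JCs 16 10 173116699 (-7143269251) 1777935613 26883302 (-334465912) := by
  have h := JCs_of_tab_neg cP17_7b cA17_7b cX17_7b cG17_7b cY17_7b cS17_7b
  norm_num at h
  exact h

/-- no cell of a 7-intersecting family of at least `θ m!` permutations of `17` points has a density in this range -/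
theorem excl17_7b : Excl 17 7 (41 / 50) (171 / 1000) (31 / 100) :=
  jcs17_7b.excl (by norm_num) (by norm_num) (by norm_num) (by norm_num) (by norm_num)
    (by norm_num) (by norm_num) (by norm_num) (by norm_num) (by norm_num) (by norm_num)
    (by norm_num)


end Pool.JM.Tab
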