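import Pool.Agent.Work.MP_46fa68_53.C19_9l
import Pool.Agent.Work.MP_46fa68_48c.Tab

/-!
# MP_46fa68_co: excluded densities for S_19, t = 9

The data were found numerically, rounded and repaired in exact arithmetic.
-/

set_option autoImplicit false

namespace Pool.JM.Tab

open Pool.JM.Pack

theorem jcs19_9l : JCs 18 10 167201597 (-3168325041) 1330392431 32798404 (-411429317) := by
  have h := JCs_of_tab_neg cP19_9l cA19_9l cX19_9l cG19_9l cY19_9l cS19_9l
  norm_num at h
  exact h

/-- no cell of a 9-intersecting family of at least `θ m!` permutations of `19` points has a density in this range -/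
theorem excl19_9l : Excl 19 9 1 (1 / 4) (3 / 5) :=
  jcs19_9l.excl (by norm_num) (by norm_num) (by norm_num) (by norm_num) (by norm_num)
    (by norm_num) (by norm_num) (by norm_num) (by norm_num) (by norm_num) (by norm_num)
    (by norm_num)


end Pool.JM.Tab
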