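import Pool.Agent.Work.MP_46fa68_53.E15_6a
import Pool.Agent.Work.MP_46fa68_53.E15_6b
import Pool.Agent.Work.MP_46fa68_53.E17_7a
import Pool.Agent.Work.MP_46fa68_53.E17_7b
import Pool.Agent.Work.MP_46fa68_53.E19_9l
import Pool.Agent.Work.MP_46fa68_53.E19_9h

/-!
# MP_46fa68_co: density gaps at (15, 6), (17, 7) and (19, 9) from the packed tables
-/

set_option autoImplicit false

open Finset Equiv

namespace Pool.JM.Tab

open Pool.EG

theorem gap15_6a : Gap 15 6 (6825 / 10000) (2225 / 10000) (46 / 100) := by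
  have h := excl15_6a.gap
  norm_num at h ⊢
  exact h

theorem gap15_6b : Gap 15 6 (81 / 100) (193 / 1000) (38 / 100) := by
  have h := excl15_6b.gap
  norm_num at h ⊢
  exact h

theorem gap17_7a : Gap 17 7 (677 / 1000) (1925 / 10000) (38 / 100) := by
  have h := excl17_7a.gap
  norm_num at h ⊢
  exact h

theorem gap17_7b : Gap 17 7 (82 / 100) (171 / 1000) (31 / 100) := by
  have h := excl17_7b.gap
  norm_num at h ⊢
  exact h

theorem gap19_9 : Gap 19 9 1 (25 / 100) (8385 / 10000) := by
  have h := (excl19_9l.glue excl19_9h (by norm_num)).gap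
  norm_num at h ⊢
  exact h

end Pool.JM.Tab
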