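import Pool.Agent.Work.MP_46fa68_53.Gaps
import Pool.Agent.Work.MP_46fa68_h58.HoldsX
import Pool.Agent.Work.MP_46fa68_63.LinkEG

/-!
# MP_46fa68_co: the diagonal `n = 2 t + 1` for `t = 9` (`m = 10`) from the packed tables
-/

set_option autoImplicit false

open Finset Equiv

namespace Pool.JM.Tab

open Pool.EG

theorem holds_19_9 (hK : ∀ n' t' : ℕ, 2 * t' + 3 ≤ n' → Holds n' t') : Holds 19 9 :=
  holds19_ofX gap19_9 gap17_7a gap17_7b (link_all 9 (by norm_num)) hK

end Pool.JM.Tab
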